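import Pool.Agent.H212.ND.All

/-!
# The map between the spaces of matings has no continuous extension to the closure

Q1 of MP_395436_an: let `n > 2` and let `A` be a marked Blaschke product of degree `n` which is not
rotation-conjugate to `z ^ n`.  The map `F : B(z ^ n) → B(A)`, class of `f(z ^ n, B)` ↦ class of
`f(A, B)`, has no continuous extension to the closure of `B(z ^ n)` in the space of polynomials, even
with values in the whole space `M`; in particular no continuous extension restricts to a
homeomorphism of the boundaries.

The proof: `g` is a polynomial of degree `n` with a parabolic fixed point whose basin contains two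
critical points which are not real.  If a continuous extension exists, there is only one possible
limit `f` of partners at `g`.  Perturbations of `g` (radial, and tangential to the unit circle of
multipliers) converge to `g` together with Lavaurs maps; the limits of the conjugacies from `g` to `f`
show that the conjugacy is holomorphic near a boundary point of the parabolic basin, so the
conjugacy from `z ^ n` to `A` on the circle is smooth on an arc and `A` is a rotation of `z ^ n`.
-/

namespace Pool.Agent.Results.MP_395436_an.NoContinuousExtension

open Pool.Agent.H212.MB Pool.Agent.H212.ND

theorem result : ∀ n : ℕ, 2 < n → ∀ A : Blaschke n, (∃ i, A.a i ≠ 0) →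
    Equivalence (AffConj n) ∧ BM (zn n) ⊆ PP n ∧
    (∃ F : BM (zn n) → BM A, Function.Bijective F ∧
      ∀ (B : Blaschke n) (x y : MPt n), IsMark (zn n) B x → IsMark A B y →
        ∀ c : BM (zn n), (c : MM n) = cls x → (F c : MM n) = cls y) ∧
    ¬ ∃ Fb : {c : MM n // c ∈ closure (BM (zn n)) ∧ c ∈ PP n} → MM n, Continuous Fb ∧
      ∀ (B : Blaschke n) (x y : MPt n), IsMark (zn n) B x → IsMark A B y →
        ∀ c : {c : MM n // c ∈ closure (BM (zn n)) ∧ c ∈ PP n}, (c : MM n) = cls x → Fb c = cls y :=
  final

end Pool.Agent.Results.MP_395436_an.NoContinuousExtension
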